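import Pool.Agent.helper20.VVO.Spec

/-!
# Row vvo:TSM (MP_069684_lc): thinning by linear hashing and a random set
-/

set_option autoImplicit false

open Filter Topology

namespace Pool.Agent.VVO

open Pool.Agent.PB Pool.Agent.ISO Pool.Agent.ISA

/-- PRM for the type of the bit strings. -/
theorem TSM_prm (hPRM : ISO.PRM_stmt) (r : ℕ) (L : Finset (Fin r → Bool)) (x : ℝ) :
    (∑ T : Finset (Fin r → Bool), x ^ T.card * (1 - x) ^ (2 ^ r - T.card) = 1) ∧
    ∀ s : ℕ, (∑ T : Finset (Fin r → Bool), if (T ∩ L).card = s then x ^ T.card * (1 - x) ^ (2 ^ r - T.card) else 0) =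
      (L.card.choose s : ℝ) * x ^ s * (1 - x) ^ (L.card - s) := by
  have hc : Fintype.card (Fin r → Bool) = 2 ^ r := by simp
  let e : (Fin r → Bool) ≃ Fin (2 ^ r) := Fintype.equivFinOfCardEq hc
  obtain ⟨h1, h2⟩ := hPRM (2 ^ r) (L.map e.toEmbedding) x
  refine ⟨?_, fun s => ?_⟩
  · refine Eq.trans ?_ h1
    refine Fintype.sum_equiv (Equiv.finsetCongr e) _ _ fun T => ?_
    have h5 : (Equiv.finsetCongr e T).card = T.card := by
      rw [Equiv.finsetCongr_apply, Finset.card_map]
    rw [h5]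
  · have h3 := h2 s
    rw [Finset.card_map] at h3
    rw [← h3]
    refine Fintype.sum_equiv (Equiv.finsetCongr e) _ _ fun T => ?_
    have h4 : (Equiv.finsetCongr e T ∩ L.map e.toEmbedding).card = (T ∩ L).card := by
      rw [Equiv.finsetCongr_apply, ← Finset.map_inter, Finset.card_map]
    have h5 : (Equiv.finsetCongr e T).card = T.card := by
      rw [Equiv.finsetCongr_apply, Finset.card_map]
    rw [h4, h5]

/-- The indicator of a range is a sum of indicators. -/
theorem TSM_ind (j c : ℕ) (z : ℝ) :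
    z * ind (1 ≤ c ∧ c ≤ j) = ∑ s ∈ Finset.Icc 1 j, if c = s then z else 0 := by
  rw [Finset.sum_ite_eq]
  unfold ind
  by_cases h : 1 ≤ c ∧ c ≤ j
  · rw [if_pos h, if_pos (Finset.mem_Icc.mpr h), mul_one]
  · rw [if_neg h, if_neg (fun h' => h (Finset.mem_Icc.mp h')), mul_zero]

theorem TSM_ind_nonneg (P : Prop) : 0 ≤ ind P := by
  unfold ind
  split_ifs
  · exact zero_le_one
  · exact le_rfl

theorem TSM_bin_nonneg (j t : ℕ) (x : ℝ) (h0 : 0 ≤ x) (h1 : x ≤ 1) : 0 ≤ bin j t x := by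
  unfold bin
  refine Finset.sum_nonneg fun r _ => ?_
  have : 0 ≤ 1 - x := by linarith
  positivity

/-- the number of the points of `K` in the preimage -/
theorem TSM_cnt {w r : ℕ} (K : Finset (Fin w → Bool)) (A : Fin r → Fin w → Bool) (T : Finset (Fin r → Bool))
    (hA : Set.InjOn (lin A) (K : Set (Fin w → Bool))) :
    (K.filter fun y => lin A y ∈ T).card = (T ∩ K.image (lin A)).card := by
  have h1 : T ∩ K.image (lin A) = (K.filter fun y => lin A y ∈ T).image (lin A) := by
    ext z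
    simp only [Finset.mem_inter, Finset.mem_image, Finset.mem_filter]
    constructor
    · rintro ⟨hz, y, hy, rfl⟩
      exact ⟨y, ⟨hy, hz⟩, rfl⟩
    · rintro ⟨y, ⟨hy, hz⟩, rfl⟩
      exact ⟨hz, y, hy, rfl⟩
  rw [h1, Finset.card_image_of_injOn]
  intro a ha b hb hab
  have ha' : a ∈ K := by
    have := Finset.mem_coe.mp ha
    exact (Finset.mem_filter.mp this).1
  have hb' : b ∈ K := by
    have := Finset.mem_coe.mp hb
    exact (Finset.mem_filter.mp this).1
  exact hA (Finset.mem_coe.mpr ha') (Finset.mem_coe.mpr hb') hab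

/-- the inner sum for an injective `A` -/
theorem TSM_inner (hPRM : ISO.PRM_stmt) {w r : ℕ} (j : ℕ) (K : Finset (Fin w → Bool)) (x : ℝ) (A : Fin r → Fin w → Bool)
    (hA : Set.InjOn (lin A) (K : Set (Fin w → Bool))) :
    ∑ T : Finset (Fin r → Bool), x ^ T.card * (1 - x) ^ (2 ^ r - T.card) *
      ind (1 ≤ (K.filter fun y => lin A y ∈ T).card ∧ (K.filter fun y => lin A y ∈ T).card ≤ j) = bin j K.card x := by
  have hL : (K.image (lin A)).card = K.card := Finset.card_image_of_injOn hA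
  calc ∑ T : Finset (Fin r → Bool), x ^ T.card * (1 - x) ^ (2 ^ r - T.card) *
      ind (1 ≤ (K.filter fun y => lin A y ∈ T).card ∧ (K.filter fun y => lin A y ∈ T).card ≤ j)
      = ∑ T : Finset (Fin r → Bool), ∑ s ∈ Finset.Icc 1 j,
          if (T ∩ K.image (lin A)).card = s then x ^ T.card * (1 - x) ^ (2 ^ r - T.card) else 0 := by
        refine Finset.sum_congr rfl fun T _ => ?_
        rw [TSM_ind, TSM_cnt K A T hA]
    _ = ∑ s ∈ Finset.Icc 1 j, ∑ T : Finset (Fin r → Bool),
          if (T ∩ K.image (lin A)).card = s then x ^ T.card * (1 - x) ^ (2 ^ r - T.card) else 0 := Finset.sum_comm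
    _ = bin j K.card x := by
        unfold bin
        refine Finset.sum_congr rfl fun s _ => ?_
        rw [(TSM_prm hPRM r (K.image (lin A)) x).2 s, hL]

open Classical in
/-- **Row vvo:TSM.** -/
theorem TSM (hHIN : ISO.HIN_stmt) (hPRM : ISO.PRM_stmt) : TSM_stmt := by
  intro w r j K x hx0 hx1
  refine ⟨(TSM_prm hPRM r ∅ x).1, ?_⟩
  have hx1' : 0 ≤ 1 - x := by linarith
  set F : (Fin r → Fin w → Bool) → ℝ := fun A => ∑ T : Finset (Fin r → Bool), x ^ T.card * (1 - x) ^ (2 ^ r - T.card) *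
      ind (1 ≤ (K.filter fun y => lin A y ∈ T).card ∧ (K.filter fun y => lin A y ∈ T).card ≤ j) with hF
  have hF0 : ∀ A, 0 ≤ F A := fun A => Finset.sum_nonneg fun T _ =>
    mul_nonneg (mul_nonneg (pow_nonneg hx0 _) (pow_nonneg hx1' _)) (TSM_ind_nonneg _)
  have hb : 0 ≤ bin j K.card x := TSM_bin_nonneg j K.card x hx0 hx1
  have hinj : ∀ A, Set.InjOn (lin A) (K : Set (Fin w → Bool)) → F A = bin j K.card x := by
    intro A hA
    rw [← TSM_inner hPRM j K x A hA, hF]
  have hsum : ((Finset.univ.filter fun A : Fin r → Fin w → Bool => Set.InjOn (lin A) (K : Set (Fin w → Bool))).card : ℝ) *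
      bin j K.card x ≤ ∑ A, F A := by
    calc ((Finset.univ.filter fun A : Fin r → Fin w → Bool => Set.InjOn (lin A) (K : Set (Fin w → Bool))).card : ℝ) * bin j K.card x
        = ∑ A ∈ Finset.univ.filter (fun A : Fin r → Fin w → Bool => Set.InjOn (lin A) (K : Set (Fin w → Bool))), F A := by
          rw [Finset.sum_congr rfl (fun A hA => hinj A (Finset.mem_filter.mp hA).2), Finset.sum_const, nsmul_eq_mul]
      _ ≤ ∑ A, F A := Finset.sum_le_sum_of_subset_of_nonneg (Finset.filter_subset _ _) (fun A _ _ => hF0 A)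
  have hcard : (Finset.univ.filter fun A : Fin r → Fin w → Bool => Set.InjOn (lin A) (K : Set (Fin w → Bool))).card +
      (Finset.univ.filter fun A : Fin r → Fin w → Bool => ¬ Set.InjOn (lin A) (K : Set (Fin w → Bool))).card =
        Fintype.card (Fin r → Fin w → Bool) := by
    rw [Finset.card_filter_add_card_filter_not, Finset.card_univ]
  have hH := hHIN w r K.card K le_rfl
  set a := (Finset.univ.filter fun A : Fin r → Fin w → Bool => Set.InjOn (lin A) (K : Set (Fin w → Bool))).card with ha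
  set b := (Finset.univ.filter fun A : Fin r → Fin w → Bool => ¬ Set.InjOn (lin A) (K : Set (Fin w → Bool))).card with hb'
  have hHr : (2 * 2 ^ r : ℝ) * (b : ℝ) ≤ (K.card : ℝ) ^ 2 * (Fintype.card (Fin r → Fin w → Bool) : ℝ) := by
    exact_mod_cast hH
  have hcr : (a : ℝ) + (b : ℝ) = (Fintype.card (Fin r → Fin w → Bool) : ℝ) := by exact_mod_cast hcard
  have hpos : (0 : ℝ) < 2 * 2 ^ r := by positivity
  have hbb : (b : ℝ) ≤ (K.card : ℝ) ^ 2 / (2 * 2 ^ r) * (Fintype.card (Fin r → Fin w → Bool) : ℝ) := by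
    rw [div_mul_eq_mul_div, le_div_iff₀ hpos]
    linarith
  have hfin : (1 - (K.card : ℝ) ^ 2 / (2 * 2 ^ r)) * bin j K.card x * (Fintype.card (Fin r → Fin w → Bool) : ℝ) ≤ ∑ A, F A := by
    refine le_trans ?_ hsum
    have h7 : (1 - (K.card : ℝ) ^ 2 / (2 * 2 ^ r)) * (Fintype.card (Fin r → Fin w → Bool) : ℝ) ≤ (a : ℝ) := by
      linarith
    calc (1 - (K.card : ℝ) ^ 2 / (2 * 2 ^ r)) * bin j K.card x * (Fintype.card (Fin r → Fin w → Bool) : ℝ)
        = ((1 - (K.card : ℝ) ^ 2 / (2 * 2 ^ r)) * (Fintype.card (Fin r → Fin w → Bool) : ℝ)) * bin j K.card x := by ring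
      _ ≤ (a : ℝ) * bin j K.card x := mul_le_mul_of_nonneg_right h7 hb
  exact hfin

end Pool.Agent.VVO
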